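import Pool.Agent.H80Inv.EndF
import Pool.Agent.RK.ER

/-!
Levels of cells. For every function `n` which gives a colour `n s Z t` to a point `s`, a set `Z` and
a point `t` of a large set there are cells `cell a i` (`a` in a given well order of levels, `i` in a
given well order) and sets `E a` which contain exactly the cells of the levels below `a`, such that
the colours are constant.
-/

set_option autoImplicit false

open Cardinal Order

namespace Pool.Agent.H80Inv

open Pool.Agent.RKH Pool.Agent.RKP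

universe u

private theorem pow_fun {A M : Type u} (m : Cardinal.{u}) (hA : #A = 2 ^ m) (hm : ℵ₀ ≤ m)
    (hM : #M ≤ m) : #(M → A) ≤ #A := by
  calc #(M → A) = #A ^ #M := by simp
    _ = 2 ^ (m * #M) := by rw [hA, ← power_mul]
    _ ≤ 2 ^ m := power_le_power_left two_ne_zero (mul_le_of_le hm le_rfl hM)
    _ = #A := hA.symm

theorem exists_cells (C W0 L0 : Type u) [LinearOrder W0] [WellFoundedLT W0] [LinearOrder L0]
    [WellFoundedLT L0] : ∃ S : Type u, ∀ n : S → Set S → S → C,
      ∃ (c1 c0 : C) (cell : L0 → W0 → S) (E : L0 → Set S),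
        (∀ a b i j, b < a → cell b j ∈ E a ∧ n (cell a i) (E a) (cell b j) = c1) ∧
        (∀ a b i j, (a < b ∨ (a = b ∧ i < j)) →
          cell b j ∉ E a ∧ n (cell a i) (E a) (cell b j) = c0) := by
  classical
  obtain ⟨B, iB1, iB2, hB⟩ := Pool.Agent.RK.erdos_rado (C × C) (WithBot L0)
  obtain ⟨M, iM1, iM2, hMp⟩ := Pool.Agent.RK.pigeon (B → C) W0
  let m0 : Cardinal.{u} := max (max #(B × M) #C) ℵ₀
  have hm0 : ℵ₀ ≤ m0 := le_max_right _ _
  have hBM : #(B × M) ≤ m0 := (le_max_left _ _).trans (le_max_left _ _)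
  have hCm : #C ≤ m0 := (le_max_right _ _).trans (le_max_left _ _)
  let R2 : Type u := ((2 : Cardinal.{u}) ^ m0).out
  have hR2 : #R2 = 2 ^ m0 := mk_out _
  have hm2 : m0 ≤ #R2 := by rw [hR2]; exact (cantor _).le
  let R1 : Type u := ((2 : Cardinal.{u}) ^ #R2).out
  have hR1 : #R1 = 2 ^ #R2 := mk_out _
  have hm1 : #R2 ≤ #R1 := by rw [hR1]; exact (cantor _).le
  have hi2 : ℵ₀ ≤ #R2 := hm0.trans hm2
  have hi1 : ℵ₀ ≤ #R1 := hi2.trans hm1
  refine ⟨(succ ((2 : Cardinal.{u}) ^ #R1)).ord.ToType, fun n => ?_⟩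
  have hOpt : #(Option (B × M)) ≤ #R2 := by
    rw [mk_option]
    exact add_le_of_le hi2 (hBM.trans hm2) (one_le_aleph0.trans hi2)
  have hCR2 : #C ≤ #R2 := hCm.trans hm2
  have hCC : #(C × C) ≤ 2 ^ #R1 := by
    refine le_trans ?_ (cantor _).le
    rw [mk_prod, lift_id]
    exact mul_le_of_le hi1 (hCR2.trans hm1) (hCR2.trans hm1)
  obtain ⟨z1, x1, hx1, h1⟩ := end_homog_fun (R := R1) (M := Option (B × M)) (K := C × C) hi1 hCC
    (pow_fun (#R2) hR1 hi2 hOpt)
    (fun S hS => bdd_of_small (hi1.trans (cantor _).le) S hS)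
    (fun p t => (n (p none) (Set.range fun q => p (some q)) t,
      n t (Set.range fun q => p (some q)) (p none)))
  obtain ⟨z2, x2, hx2, h2⟩ := end_homog_fun (R := R2) (M := B × M) (K := C) hi2
    (hCR2.trans (cantor _).le) (pow_fun m0 hR2 hm0 hBM)
    (fun S hS => bdd_of_small (k := #R1) hi1 S (hS.trans hR1.ge))
    (fun h t => n (x1 t) (Set.range fun q => x1 (h q)) z1)
  -- the embedding
  have hemb : Nonempty ((WithBot (B ×ₗ M)) ≤i (succ #R2).ord.ToType) := by
    rcases InitialSeg.total (· < · : (WithBot (B ×ₗ M)) → (WithBot (B ×ₗ M)) → Prop)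
      (· < · : (succ #R2).ord.ToType → (succ #R2).ord.ToType → Prop) with h | h
    · exact ⟨h⟩
    · exfalso
      have h1 : #((succ #R2).ord.ToType) ≤ #(Option (B × M)) :=
        mk_le_of_injective (β := Option (B × M)) h.injective
      have h2 : #((succ #R2).ord.ToType) = succ #R2 := by simp
      rw [h2] at h1
      exact absurd (h1.trans hOpt) (not_le.mpr (lt_succ _))
  obtain ⟨em⟩ := hemb
  have hem : StrictMono em := em.strictMono
  let pt : B → M → (succ #R2).ord.ToType := fun b m => em ((toLex (b, m) : B ×ₗ M) : WithBot _)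
  have hpt : ∀ b m b' m', (b < b' ∨ (b = b' ∧ m < m')) → pt b m < pt b' m' := by
    intro b m b' m' h
    exact hem (WithBot.coe_lt_coe.2 (Prod.Lex.toLex_lt_toLex.2 h))
  let hs : B → B × M → (succ #R2).ord.ToType := fun b q => if q.1 < b then pt q.1 q.2 else em ⊥
  have hhs : ∀ b q m b', b ≤ b' → hs b q < pt b' m := by
    intro b q m b' hb
    by_cases h : q.1 < b
    · simp only [hs, if_pos h]
      exact hpt _ _ _ _ (Or.inl (h.trans_le hb))
    · simp only [hs, if_neg h]
      exact hem (WithBot.bot_lt_coe _)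
  let Es : B → Set (succ ((2 : Cardinal.{u}) ^ #R1)).ord.ToType :=
    fun b => Set.range fun q => x1 (x2 (hs b q))
  have key : ∀ (b : B) (s t : (succ #R2).ord.ToType), s < t → (∀ q, hs b q < t) →
      n (x1 (x2 s)) (Es b) (x1 (x2 t)) = n (x1 (x2 s)) (Es b) z1 ∧
      n (x1 (x2 t)) (Es b) (x1 (x2 s)) = n z1 (Es b) (x1 (x2 s)) := by
    intro b s t hst hb
    have h3 := h1 (fun o => o.elim (x2 s) fun q => x2 (hs b q)) (x2 t) (by
      intro o
      cases o with
      | none => exact hx2 hst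
      | some q => exact hx2 (hb q))
    simp only [Option.elim_none, Option.elim_some, Prod.mk.injEq] at h3
    exact h3
  have key2 : ∀ (b : B) (s : (succ #R2).ord.ToType), (∀ q, hs b q < s) →
      n (x1 (x2 s)) (Es b) z1 = n (x1 z2) (Es b) z1 := fun b s hb => h2 (fun q => hs b q) s hb
  -- the levels
  have hpg : ∀ β : B, ∃ g : W0 → M, StrictMono g ∧ ∃ c : B → C, ∀ a,
      (fun b => n z1 (Es b) (x1 (x2 (pt β (g a))))) = c := fun β =>
    hMp fun m => fun b => n z1 (Es b) (x1 (x2 (pt β m)))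
  choose w hw cst hcst using hpg
  obtain ⟨g, hg, cc, hcc⟩ := hB fun β b => (n (x1 z2) (Es b) z1, cst β b)
  refine ⟨cc.2, cc.1, fun a i => x1 (x2 (pt (g a) (w (g a) i))), fun a => Es (g a), ?_, ?_⟩
  · intro a b i j hba
    have hlt : g b < g a := hg (WithBot.coe_lt_coe.2 hba)
    refine ⟨⟨(g b, w (g b) j), ?_⟩, ?_⟩
    · simp only [hs, if_pos hlt]
    · rw [(key (g a) (pt (g b) (w (g b) j)) (pt (g a) (w (g a) i)) (hpt _ _ _ _ (Or.inl hlt))
        (fun q => hhs _ q _ _ le_rfl)).2]
      have h3 := congrFun (hcst (g b) j) (g a)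
      have h4 := hcc (b : WithBot L0) (a : WithBot L0) (WithBot.coe_lt_coe.2 hba)
      rw [← h4]
      exact h3
  · intro a b i j hab
    have hle : g a ≤ g b := by
      rcases hab with h | ⟨h, -⟩
      · exact (hg (WithBot.coe_lt_coe.2 h)).le
      · rw [h]
    have hlt : pt (g a) (w (g a) i) < pt (g b) (w (g b) j) := by
      rcases hab with h | ⟨h, h'⟩
      · exact hpt _ _ _ _ (Or.inl (hg (WithBot.coe_lt_coe.2 h)))
      · subst h
        exact hpt _ _ _ _ (Or.inr ⟨rfl, hw _ h'⟩)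
    refine ⟨?_, ?_⟩
    · rintro ⟨q, hq⟩
      have h3 : hs (g a) q = pt (g b) (w (g b) j) := hx2.injective (hx1.injective hq)
      exact (hhs (g a) q (w (g b) j) (g b) hle).ne h3
    · rw [(key (g a) _ _ hlt (fun q => hhs _ q _ _ hle)).1,
        key2 (g a) _ (fun q => hhs _ q _ _ le_rfl)]
      have h4 := hcc (⊥ : WithBot L0) (a : WithBot L0) (WithBot.bot_lt_coe _)
      rw [← h4]

end Pool.Agent.H80Inv
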