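import Pool.Agent.RKP.Ram

/-!
End homogeneity for functions whose parameter is a family of points.
-/

set_option autoImplicit false

open Cardinal Order

namespace Pool.Agent.H80Inv

open Pool.Agent.RKH Pool.Agent.RKP

universe u

theorem end_homog_fun {R X K M : Type u} [LinearOrder X] (hR : ℵ₀ ≤ #R)
    (hK : #K ≤ 2 ^ #R) (hM : #(M → R) ≤ #R)
    (hb : ∀ S : Set X, #S ≤ 2 ^ #R → ∃ z, ∀ s ∈ S, s < z) (Q : (M → X) → X → K) :
    ∃ (z : X) (x : (succ #R).ord.ToType → X), StrictMono x ∧
      ∀ (h : M → (succ #R).ord.ToType) (eta : (succ #R).ord.ToType),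
        (∀ m, h m < eta) → Q (fun m => x (h m)) (x eta) = Q (fun m => x (h m)) z := by
  classical
  obtain ⟨x0, -⟩ := hb ∅ (by simp)
  have hT : #((M → R) → K) ≤ 2 ^ #R := by
    calc #((M → R) → K) = #K ^ #(M → R) := by simp
      _ ≤ (2 ^ #R) ^ #(M → R) := power_le_power_right hK
      _ = 2 ^ (#R * #(M → R)) := by rw [← power_mul]
      _ ≤ 2 ^ #R := by
        refine power_le_power_left two_ne_zero ?_
        exact mul_le_of_le hR le_rfl hM
  obtain ⟨C, hC, hx0, hcl⟩ := exists_closed_T (R := R) x0 hR hT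
    (fun sg x => fun u : M → R => Q (fun m => sg (u m)) x)
  obtain ⟨z, hz⟩ := hb C hC
  have hrec := exists_rec (Th := (succ #R).ord.ToType) (C := C) (· < ·) wellFounded_lt
    (fun xi g c => (∀ eta (h : eta < xi), ((g eta h : C) : X) < c) ∧
      ∀ l : M → Set.Iio xi,
        Q (fun m => (g (l m).1 (l m).2 : X)) c = Q (fun m => (g (l m).1 (l m).2 : X)) z) ?_
  · obtain ⟨x, hx⟩ := hrec
    refine ⟨z, fun xi => x xi, ?_, ?_⟩
    · intro a b hab
      exact (hx b).1 a hab
    · intro h eta hh
      exact (hx eta).2 (fun m => ⟨h m, hh m⟩)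
  · intro xi g
    by_cases hne : Nonempty (Set.Iio xi)
    · have hle : #(Set.Iio xi) ≤ #R := mk_Iio_le _ xi
      obtain ⟨emb⟩ := (Cardinal.le_def _ _).mp hle
      have hsurj : Function.Surjective (Function.invFun emb) :=
        Function.invFun_surjective emb.injective
      let s : R → Set.Iio xi := Function.invFun emb
      obtain ⟨x, hxC, hx1, hx2⟩ := hcl (fun r => (g (s r).1 (s r).2 : C)) z
        (fun r => (g (s r).1 (s r).2).2) (fun r => hz _ (g (s r).1 (s r).2).2)
      refine ⟨⟨x, hxC⟩, ?_, ?_⟩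
      · intro eta h
        obtain ⟨r, hr⟩ := hsurj ⟨eta, h⟩
        have hr1 : s r = ⟨eta, h⟩ := hr
        have := hx1 r
        simp only [hr1] at this
        exact this
      · intro l
        choose w hw using hsurj
        have hw1 : ∀ r, s (w r) = r := hw
        have h3 := congrFun hx2 (fun m => w (l m))
        simp only [hw1] at h3
        exact h3
    · obtain ⟨x, hxC, hx1, hx2⟩ := hcl (fun _ => x0) z (fun _ => hx0) (fun _ => hz _ hx0)
      refine ⟨⟨x, hxC⟩, ?_, ?_⟩
      · intro eta h
        exact absurd ⟨⟨eta, h⟩⟩ hne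
      · intro l
        by_cases hMe : Nonempty M
        · exact absurd ⟨l hMe.some⟩ hne
        · have hR0 : Nonempty R := by
            rw [← Cardinal.mk_ne_zero_iff]
            exact (aleph0_pos.trans_le hR).ne'
          have h3 := congrFun hx2 (fun _ => hR0.some)
          have h4 : (fun m => (g (l m).1 (l m).2 : X)) = fun _ : M => x0 := by
            funext m
            exact absurd ⟨m⟩ hMe
          rw [h4]
          exact h3

end Pool.Agent.H80Inv
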