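import Pool.Agent.RKP.SysN
import Pool.Agent.RKH.Two

/-!
The index lemma. In a universal graph with a colouring there are, for a set `S` of indices, vertices
which are given by an index `s` and a set `Z` of indices: a later vertex with index `t` is joined to
it iff `t ∈ Z`, and the colour depends only on `s`, `Z` and `t`.
-/

set_option autoImplicit false

open Cardinal Order

namespace Pool.Agent.H80Inv

open Pool.Agent.RKH Pool.Agent.RKP

universe u

open Classical in
theorem exists_index (C S K0 : Type u) : ∃ (V : Type u) (G : SimpleGraph V),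
    ∀ (D : V → V → Option (Bool × C)),
      (∀ x y, x ≠ y → ∃ (b : Bool) (c : C), D x y = some (b, c) ∧ (b = true ↔ G.Adj x y)) →
      ∃ n : S → Set S → S → C, ∀ (W : Type u) [LinearOrder W] [WellFoundedLT W], #W ≤ #K0 →
        ∀ (s : W → S) (Z : W → Set S), ∃ v : W → V, ∀ i j, i < j →
          D (v i) (v j) = some (decide (s j ∈ Z i), n (s i) (Z i) (s j)) := by
  let m0 : Cardinal.{u} := max (max (max #S #C) #K0) ℵ₀
  have hm0 : ℵ₀ ≤ m0 := le_max_right _ _
  have hSm : #S ≤ m0 := ((le_max_left _ _).trans (le_max_left _ _)).trans (le_max_left _ _)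
  have hCm : #C ≤ m0 := ((le_max_right _ _).trans (le_max_left _ _)).trans (le_max_left _ _)
  have hKm : #K0 ≤ m0 := (le_max_right _ _).trans (le_max_left _ _)
  let M : Type u := ((2 : Cardinal.{u}) ^ m0).out
  have hM : #M = 2 ^ m0 := mk_out _
  have hmM : m0 ≤ #M := by rw [hM]; exact (cantor _).le
  have hMi : ℵ₀ ≤ #M := hm0.trans hmM
  obtain ⟨V, G, hG⟩ := sysN C M hMi (hCm.trans hmM)
  refine ⟨V, G, fun D hD => ?_⟩
  obtain ⟨N, y, hN, hsys⟩ := hG D hD
  have hST : #S ≤ #((succ ((2 : Cardinal.{u}) ^ #M)).ord.ToType) := by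
    have h2 : #((succ ((2 : Cardinal.{u}) ^ #M)).ord.ToType) = succ ((2 : Cardinal.{u}) ^ #M) := by
      simp
    rw [h2]
    exact ((hSm.trans hmM).trans (cantor _).le).trans (le_succ _)
  obtain ⟨em⟩ := (Cardinal.le_def _ _).1 hST
  have hcol : ∀ (s : S) (Z : Set S), ∃ h : S → C, ∀ A : Set V, A ⊆ N → #A ≤ #M →
      ∃ v ∈ N, (∀ a ∈ A, D a v = D a (y (em s))) ∧
        ∀ t : S, D v (y (em t)) = some (decide (t ∈ Z), h t) := by
    intro s Z
    by_contra hcon
    push Not at hcon
    choose A hAN hAM hbad using hcon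
    have hU : #(⋃ h, A h : Set V) ≤ #M := by
      refine (mk_iUnion_le_sum_mk).trans ?_
      refine (sum_le_sum _ (fun _ => #M) hAM).trans ?_
      rw [sum_const']
      refine mul_le_of_le hMi ?_ le_rfl
      calc #(S → C) = #C ^ #S := by simp
        _ ≤ (2 ^ m0) ^ #S := power_le_power_right (hCm.trans (cantor _).le)
        _ = 2 ^ (m0 * #S) := by rw [← power_mul]
        _ ≤ 2 ^ m0 := power_le_power_left two_ne_zero (mul_le_of_le hm0 le_rfl hSm)
        _ = #M := hM.symm
    obtain ⟨v, hvN, hv1, hv2⟩ := hsys (em s) (⋃ h, A h) (Set.iUnion_subset hAN) hU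
      (Set.range em) (mk_range_le.trans (hSm.trans hmM)) (em '' Z)
    have hv3 : ∀ t : S, ∃ c : C, D v (y (em t)) = some (decide (t ∈ Z), c) := by
      intro t
      obtain ⟨c, hc⟩ := hv2 (em t) ⟨t, rfl⟩
      refine ⟨c, hc.trans ?_⟩
      have : (em t ∈ em '' Z) ↔ t ∈ Z := em.injective.mem_set_image
      simp only [this]
    choose h hh using hv3
    obtain ⟨t, ht⟩ := hbad h v hvN fun a ha => hv1 a (Set.mem_iUnion.2 ⟨h, ha⟩)
    exact ht (hh t)
  choose n hn using hcol
  refine ⟨n, fun W _ _ hW s Z => ?_⟩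
  obtain ⟨v, hv⟩ := exists_rec (Th := W) (C := N) (· < ·) wellFounded_lt
    (fun i g c => (∀ j (h : j < i), D (g j h : V) (c : V) = D (g j h : V) (y (em (s i)))) ∧
      ∀ t : S, D (c : V) (y (em t)) = some (decide (t ∈ Z i), n (s i) (Z i) t)) (by
    intro i g
    obtain ⟨v, hvN, hv1, hv2⟩ := hn (s i) (Z i) (Set.range fun j : Set.Iio i => (g j.1 j.2 : V))
      (by rintro _ ⟨j, rfl⟩; exact Subtype.coe_prop _)
      (mk_range_le.trans ((mk_le_of_injective Subtype.val_injective).trans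
        (hW.trans (hKm.trans hmM))))
    exact ⟨⟨v, hvN⟩, fun j h => hv1 _ ⟨⟨j, h⟩, rfl⟩, hv2⟩)
  refine ⟨fun i => v i, fun i j hij => ?_⟩
  rw [(hv j).1 i hij]
  exact (hv i).2 (s j)

end Pool.Agent.H80Inv
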