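import Pool.Agent.H80Inv.Cells
import Pool.Agent.H80Inv.Index
import Pool.Agent.RKC.Defs

/-!
The theorem on inversion graphs.
-/

set_option autoImplicit false

open Cardinal Order

namespace Pool.Agent.H80Inv

open Pool.Agent.RKC Pool.Agent.RKP Pool.Agent.RKH

universe u

open Classical in
/-- the relation and the colour of a pair of vertices -/
private noncomputable def DdG {V C : Type u} (G : SimpleGraph V) (f : G.edgeSet → C)
    (g : Gᶜ.edgeSet → C) (e : Sym2 V) : Option (Bool × C) :=
  if h : e ∈ G.edgeSet then some (true, f ⟨e, h⟩)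
  else if h : e ∈ Gᶜ.edgeSet then some (false, g ⟨e, h⟩) else none

/-- the relation and the colour of a pair of vertices -/
private noncomputable def DdR {V C : Type u} (G : SimpleGraph V) (f : G.edgeSet → C)
    (g : Gᶜ.edgeSet → C) (x y : V) : Option (Bool × C) := DdG G f g s(x, y)

private theorem DdR_spec {V C : Type u} (G : SimpleGraph V) (f : G.edgeSet → C)
    (g : Gᶜ.edgeSet → C) (x y : V) (hxy : x ≠ y) :
    ∃ (b : Bool) (c : C), DdR G f g x y = some (b, c) ∧ (b = true ↔ G.Adj x y) := by
  classical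
  by_cases h : s(x, y) ∈ G.edgeSet
  · refine ⟨true, f ⟨s(x, y), h⟩, by rw [DdR, DdG, dif_pos h], ?_⟩
    simpa using (SimpleGraph.mem_edgeSet G).1 h
  · have h' : s(x, y) ∈ Gᶜ.edgeSet := by
      rw [SimpleGraph.mem_edgeSet, SimpleGraph.compl_adj]
      exact ⟨hxy, fun h1 => h ((SimpleGraph.mem_edgeSet G).2 h1)⟩
    refine ⟨false, g ⟨s(x, y), h'⟩, by rw [DdR, DdG, dif_neg h, dif_pos h'], ?_⟩
    simpa using fun h1 => h ((SimpleGraph.mem_edgeSet G).2 h1)

private theorem DdR_type {V C : Type u} {G : SimpleGraph V} {f : G.edgeSet → C}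
    {g : Gᶜ.edgeSet → C} {x y : V} {b : Bool} {c c1 c0 : C} (hc : c = if b then c1 else c0)
    (h : DdR G f g x y = some (b, c)) : HasType G f g c1 c0 (b = true) x y := by
  classical
  by_cases h1 : s(x, y) ∈ G.edgeSet
  · rw [DdR, DdG, dif_pos h1, Option.some.injEq, Prod.mk.injEq] at h
    obtain ⟨rfl, h2⟩ := h
    rw [hc, if_pos rfl] at h2
    exact ⟨fun _ => ⟨h1, h2⟩, fun h3 => absurd rfl h3⟩
  · by_cases h2 : s(x, y) ∈ Gᶜ.edgeSet
    · rw [DdR, DdG, dif_neg h1, dif_pos h2, Option.some.injEq, Prod.mk.injEq] at h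
      obtain ⟨rfl, h3⟩ := h
      rw [hc, if_neg (by simp)] at h3
      exact ⟨fun h4 => absurd h4 (by simp), fun _ => ⟨h2, h3⟩⟩
    · rw [DdR, DdG, dif_neg h1, dif_neg h2] at h
      exact absurd h (by simp)

private theorem initial_of_small {A B : Type u} [LinearOrder A] [WellFoundedLT A] [LinearOrder B]
    [WellFoundedLT B] (h : #A < #B) : Nonempty (A ≤i B) := by
  rcases InitialSeg.total (· < · : A → A → Prop) (· < · : B → B → Prop) with h1 | h1
  · exact ⟨h1⟩
  · exact absurd (mk_le_of_injective h1.injective) (not_le.mpr h)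

/-- One graph for all colourings and all inversion graphs with at most `#K0` vertices, and one for
their complements. -/
private theorem inv_aux {V C S K0 : Type u} {G : SimpleGraph V} {f : G.edgeSet → C}
    {g : Gᶜ.edgeSet → C} {W0 : Type u} [LinearOrder W0] [WellFoundedLT W0]
    (hW0 : #W0 = succ #K0) (hS : ∀ n : S → Set S → S → C,
      ∃ (c1 c0 : C) (cell : W0 → W0 → S) (E : W0 → Set S),
        (∀ a b i j, b < a → cell b j ∈ E a ∧ n (cell a i) (E a) (cell b j) = c1) ∧
        (∀ a b i j, (a < b ∨ (a = b ∧ i < j)) →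
          cell b j ∉ E a ∧ n (cell a i) (E a) (cell b j) = c0))
    {n : S → Set S → S → C} (hn : ∀ (W : Type u) [LinearOrder W] [WellFoundedLT W], #W ≤ #K0 →
        ∀ (s : W → S) (Z : W → Set S), ∃ v : W → V, ∀ i j, i < j → DdR G f g (v i) (v j) =
          some (@decide (s j ∈ Z i) (Classical.propDecidable _), n (s i) (Z i) (s j)))
    (b : Bool) : ∃ c1 c0 : C,
      ∀ (W L : Type u) [LinearOrder W] [WellFoundedLT W] [LinearOrder L] [WellFoundedLT L]
        (l : W → L), #W ≤ #K0 → ∀ H : SimpleGraph W,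
        (∀ x y, x < y → (H.Adj x y ↔ (l y < l x ↔ b = true))) →
        ∃ p : H ↪g G, ∀ x y : W, x ≠ y → HasType G f g c1 c0 (H.Adj x y) (p x) (p y) := by
  classical
  obtain ⟨d1, d0, cell, E, h1, h0⟩ := hS fun s Z t => n s (if b = true then Z else Zᶜ) t
  refine ⟨if b = true then d1 else d0, if b = true then d0 else d1,
    fun W L _ _ _ _ l hW H hH => ?_⟩
  obtain ⟨i⟩ : Nonempty (W ≤i W0) := initial_of_small (by
    rw [hW0]; exact hW.trans_lt (lt_succ _))
  obtain ⟨j⟩ : Nonempty (Set.range l ≤i W0) := initial_of_small (by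
    rw [hW0]; exact (mk_range_le.trans hW).trans_lt (lt_succ _))
  let lv : W → W0 := fun x => j ⟨l x, ⟨x, rfl⟩⟩
  have hlv : ∀ x y, lv x < lv y ↔ l x < l y := fun x y =>
    j.strictMono.lt_iff_lt.trans Iff.rfl
  obtain ⟨v, hv⟩ := hn W hW (fun x => cell (lv x) (i x))
    (fun x => if b = true then E (lv x) else (E (lv x))ᶜ)
  have key : ∀ x y : W, x < y → HasType G f g (if b = true then d1 else d0)
      (if b = true then d0 else d1) (H.Adj x y) (v x) (v y) := by
    intro x y hxy
    have hcol : (cell (lv y) (i y) ∈ E (lv x) ↔ l y < l x) ∧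
        n (cell (lv x) (i x)) (if b = true then E (lv x) else (E (lv x))ᶜ) (cell (lv y) (i y)) =
          if l y < l x then d1 else d0 := by
      by_cases hl : l y < l x
      · have h2 := h1 (lv x) (lv y) (i x) (i y) ((hlv y x).2 hl)
        exact ⟨iff_of_true h2.1 hl, by rw [if_pos hl]; exact h2.2⟩
      · have h2 := h0 (lv x) (lv y) (i x) (i y)
          ((not_lt.1 fun h => hl ((hlv y x).1 h)).lt_or_eq.imp_right fun h =>
            ⟨h, i.strictMono hxy⟩)
        exact ⟨iff_of_false h2.1 hl, by rw [if_neg hl]; exact h2.2⟩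
    have hmem : (cell (lv y) (i y) ∈ if b = true then E (lv x) else (E (lv x))ᶜ) ↔
        H.Adj x y := by
      rw [hH x y hxy]
      cases b with
      | true => simpa using hcol.1
      | false => simpa using not_congr hcol.1
    have h3 := DdR_type (c1 := if b = true then d1 else d0) (c0 := if b = true then d0 else d1)
      (by
        rw [hcol.2]
        have h4 : (decide (cell (lv y) (i y) ∈ if b = true then E (lv x) else (E (lv x))ᶜ) =
            true) ↔ (l y < l x ↔ b = true) := by
          rw [decide_eq_true_iff, hmem, hH x y hxy]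
        by_cases hl : l y < l x <;> cases b <;> simp_all) (hv x y hxy)
    refine h3.congr ?_
    rw [decide_eq_true_iff]
    exact hmem
  have key' : ∀ x y : W, x ≠ y → HasType G f g (if b = true then d1 else d0)
      (if b = true then d0 else d1) (H.Adj x y) (v x) (v y) := by
    intro x y hxy
    rcases lt_or_gt_of_ne hxy with h | h
    · exact key x y h
    · exact (key y x h).symm.congr (H.adj_comm y x)
  have hinj : Function.Injective v := by
    intro x y hxy
    by_contra hne
    exact (key' x y hne).ne hxy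
  refine ⟨⟨⟨v, hinj⟩, ?_⟩, key'⟩
  intro x y
  by_cases hxy : x = y
  · subst hxy
    simp
  · exact (key' x y hxy).adj_iff

/-- One graph for all colourings and all inversion graphs with at most `#K0` vertices and their
complements. -/
theorem inv_main (C K0 : Type u) : ∃ (V : Type u) (G : SimpleGraph V),
    ∀ (f : G.edgeSet → C) (g : Gᶜ.edgeSet → C), ∀ b : Bool, ∃ c1 c0 : C,
      ∀ (W L : Type u) [LinearOrder W] [WellFoundedLT W] [LinearOrder L] [WellFoundedLT L]
        (l : W → L), #W ≤ #K0 → ∀ H : SimpleGraph W,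
        (∀ x y, x < y → (H.Adj x y ↔ (l y < l x ↔ b = true))) →
        ∃ p : H ↪g G, ∀ x y : W, x ≠ y → HasType G f g c1 c0 (H.Adj x y) (p x) (p y) := by
  classical
  let W0 : Type u := (succ #K0).ord.ToType
  have hW0 : #W0 = succ #K0 := by simp [W0]
  obtain ⟨S, hS⟩ := exists_cells C W0 W0
  obtain ⟨V, G, hG⟩ := exists_index C S K0
  refine ⟨V, G, fun f g b => ?_⟩
  obtain ⟨n, hn⟩ := hG (DdR G f g) (DdR_spec G f g)
  exact inv_aux hW0 hS hn b

end Pool.Agent.H80Inv
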